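import Pool.Agent.helper83.SB.Spec
import Pool.Agent.helper18.SC.UP
import Pool.Agent.helper18.SC.CH2

open scoped Pointwise ContDiff
open MeasureTheory Set Filter Topology

namespace Pool.Agent.helper83.SB

open Pool.Agent.helper83.SC

theorem MLS_rep {m : ℕ} (b : OrthonormalBasis (Fin (m + 1)) ℝ (E (m + 1))) (v : E (m + 1))
    (hv : (coord b v).2 ≠ 0) :
    v = (coord b v).2 • emb b ((coord b v).2⁻¹ • (coord b v).1) := by
  have h := b.sum_repr' v
  rw [Fin.sum_univ_castSucc] at h
  unfold emb
  rw [smul_add, Finset.smul_sum]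
  have e1 : ∀ i : Fin m, (coord b v).2 • (((coord b v).2⁻¹ • (coord b v).1) i • b i.castSucc)
      = inner ℝ (b i.castSucc) v • b i.castSucc := by
    intro i
    rw [smul_smul]
    congr 1
    have : ((coord b v).2⁻¹ • (coord b v).1) i = (coord b v).2⁻¹ * (coord b v).1 i := rfl
    rw [this, ← mul_assoc, mul_inv_cancel₀ hv, one_mul]
    rfl
  rw [Finset.sum_congr rfl fun i _ => e1 i]
  conv_lhs => rw [← h]
  rfl

/-- The key comparison on one half space. -/
theorem MLS_half (hMLE : MLE_stmt) {m : ℕ} {μ ν : Measure (E (m + 1))} (hμ : Sph μ) (hν : Sph ν)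
    (b : OrthonormalBasis (Fin (m + 1)) ℝ (E (m + 1)))
    (h : ∀ φ : E m → ℝ, Test φ → ∫ v, lift b φ v ∂μ ≤ ∫ v, lift b φ v ∂ν)
    {A : Set (E (m + 1))} (hA : MeasurableSet A) (hAb : ∀ v ∈ A, 0 < (coord b v).2) :
    μ A ≤ ν A := by
  have hμf := hμ.1
  have hνf := hν.1
  have hμf' := UPν_finite b hμ.2
  have hνf' := UPν_finite b hν.2
  have hle : UPν b μ ≤ UPν b ν := hMLE hμf' hνf' (fun φ hφ => by
    rw [UP_integral b hφ, UP_integral b hφ]
    exact h φ hφ)
  set g : E m → ENNReal := fun y =>
    A.indicator (fun _ => (1 : ENNReal)) (‖emb b y‖⁻¹ • emb b y) * ENNReal.ofReal ‖emb b y‖ with hg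
  have hcont : Continuous (fun y : E m => ‖emb b y‖⁻¹ • emb b y) := by
    refine Continuous.smul (Continuous.inv₀ (UP_emb_cont b).norm ?_) (UP_emb_cont b)
    intro y
    exact (norm_pos_iff.2 (UP_emb_ne b y)).ne'
  have hgm : Measurable g := by
    refine Measurable.mul ?_ (ENNReal.measurable_ofReal.comp (UP_emb_cont b).norm.measurable)
    exact (measurable_const.indicator hA).comp hcont.measurable
  have key : ∀ {S : Measure (E (m + 1))}, Sph S → ∫⁻ y, g y ∂(UPν b S) = S A := by
    intro S hS
    unfold UPν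
    rw [lintegral_map hgm (UPπ_meas b)]
    have e0 : ∫⁻ v, g (UPπ b v) ∂(S.withDensity (UPρ b)) = ∫⁻ v, (UPρ b * (g ∘ UPπ b)) v ∂S :=
      lintegral_withDensity_eq_lintegral_mul S (UPρ_meas b) (hgm.comp (UPπ_meas b))
    rw [e0]
    have e1 : ∫⁻ v, (UPρ b * (g ∘ UPπ b)) v ∂S = ∫⁻ v, A.indicator (fun _ => (1 : ENNReal)) v ∂S := by
      apply lintegral_congr_ae
      have h2 : ∀ᵐ v ∂S, v ∈ Metric.sphere (0 : E (m + 1)) 1 := by
        rw [ae_iff]; exact hS.2
      filter_upwards [h2] with v hv
      rw [mem_sphere_zero_iff_norm] at hv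
      simp only [Pi.mul_apply, Function.comp_apply]
      by_cases hpos : 0 < (coord b v).2
      · have hrep := MLS_rep b v hpos.ne'
        have hrep' : v = (coord b v).2 • emb b (UPπ b v) := hrep
        have hn : (coord b v).2 * ‖emb b (UPπ b v)‖ = 1 := by
          have h3 := congrArg norm hrep'
          rw [norm_smul, Real.norm_eq_abs, abs_of_pos hpos, hv] at h3
          exact h3.symm
        have hinv : ‖emb b (UPπ b v)‖⁻¹ = (coord b v).2 :=
          inv_eq_of_mul_eq_one_left hn
        rw [hg]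
        simp only
        rw [hinv, ← hrep']
        unfold UPρ
        rw [mul_comm, mul_assoc, ← ENNReal.ofReal_mul (norm_nonneg _), mul_comm ‖_‖, hn,
          ENNReal.ofReal_one, mul_one]
      · have h0 : UPρ b v = 0 := by
          unfold UPρ
          exact ENNReal.ofReal_of_nonpos (not_lt.1 hpos)
        rw [h0, zero_mul]
        rw [indicator_of_notMem]
        intro hvA
        exact hpos (hAb v hvA)
    rw [e1, lintegral_indicator hA, setLIntegral_one]
  rw [← key hμ, ← key hν]
  exact lintegral_mono' hle le_rfl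

theorem MLS_union {n : ℕ} {μ ν : Measure (E n)} {ι : Type*} (t : Finset ι) (H : ι → Set (E n))
    (hH : ∀ i ∈ t, MeasurableSet (H i))
    (h : ∀ i ∈ t, ∀ A : Set (E n), MeasurableSet A → A ⊆ H i → μ A ≤ ν A) :
    ∀ A : Set (E n), MeasurableSet A → (A ⊆ ⋃ i ∈ t, H i) → μ A ≤ ν A := by
  classical
  induction t using Finset.induction_on with
  | empty =>
    intro A _ hAs
    have : A = ∅ := by
      rw [← subset_empty_iff]
      simpa using hAs
    rw [this, measure_empty]
    exact bot_le
  | insert i t hi ih =>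
    intro A hA hAs
    have hHi := hH i (Finset.mem_insert_self i t)
    rw [← measure_inter_add_sdiff A hHi, ← measure_inter_add_sdiff (μ := ν) A hHi]
    refine add_le_add ?_ ?_
    · exact h i (Finset.mem_insert_self i t) _ (hA.inter hHi) inter_subset_right
    · refine ih (fun j hj => hH j (Finset.mem_insert_of_mem hj))
        (fun j hj => h j (Finset.mem_insert_of_mem hj)) _ (hA.diff hHi) ?_
      rintro x ⟨hxA, hxi⟩
      have hx := hAs hxA
      rw [Finset.set_biUnion_insert] at hx
      rcases hx with hx | hx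
      · exact absurd hx hxi
      · exact hx

theorem MLS_of (hMLE : MLE_stmt) : MLS_stmt := by
  intro m μ ν hμ hν h
  have hb : ∀ u : E (m + 1), ∃ b : OrthonormalBasis (Fin (m + 1)) ℝ (E (m + 1)),
      u ∈ Metric.sphere (0 : E (m + 1)) 1 → b (Fin.last m) = u := by
    intro u
    by_cases hu : u ∈ Metric.sphere (0 : E (m + 1)) 1
    · obtain ⟨b, hb⟩ := exists_basis_of hu
      exact ⟨b, fun _ => hb⟩
    · exact ⟨EuclideanSpace.basisFun _ _, fun hu' => absurd hu' hu⟩
  choose b hb using hb
  have hopen : ∀ u, IsOpen {v : E (m + 1) | 0 < (coord (b u) v).2} := fun u =>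
    isOpen_lt continuous_const (UP_coord2_cont (b u))
  obtain ⟨t, ht, hcov⟩ := (isCompact_sphere (0 : E (m + 1)) 1).elim_nhds_subcover
    (fun u => {v : E (m + 1) | 0 < (coord (b u) v).2}) (by
      intro u hu
      apply (hopen u).mem_nhds
      show 0 < (coord (b u) u).2
      unfold coord
      simp only
      rw [hb u hu, real_inner_self_eq_norm_sq, mem_sphere_zero_iff_norm.1 hu]
      norm_num)
  rw [Measure.le_iff]
  intro A hA
  have hsph : MeasurableSet (Metric.sphere (0 : E (m + 1)) 1) := Metric.isClosed_sphere.measurableSet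
  have h1 : μ A = μ (A ∩ Metric.sphere (0 : E (m + 1)) 1) := by
    rw [← measure_inter_add_sdiff A hsph]
    have : μ (A \ Metric.sphere (0 : E (m + 1)) 1) = 0 :=
      measure_mono_null (fun x hx => hx.2) hμ.2
    rw [this, add_zero]
  rw [h1]
  refine le_trans (b := ν (A ∩ Metric.sphere (0 : E (m + 1)) 1)) ?_
    (measure_mono inter_subset_left)
  refine MLS_union t (fun u => {v : E (m + 1) | 0 < (coord (b u) v).2})
    (fun u _ => (hopen u).measurableSet) ?_ _ (hA.inter hsph) ?_
  · intro u _ A' hA' hAu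
    exact MLS_half hMLE hμ hν (b u) (fun φ hφ => h (b u) φ hφ) hA' hAu
  · exact inter_subset_right.trans hcov

end Pool.Agent.helper83.SB
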